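import Pool.Agent.Q80.AC.Stm

open MeasureTheory Topology Filter
open scoped ENNReal NNReal ComplexConjugate

noncomputable section

namespace Q39.AC.DOM

open Pool.Agent.Q80.AC

theorem t_DOM : S_DOM := by
  intro X _ ω κ _ _ hac ε hε
  obtain ⟨h, hh⟩ : ∃ h : X → ℝ≥0∞, h = ω.rnDeriv κ := ⟨_, rfl⟩
  have hm : Measurable h := by rw [hh]; exact Measure.measurable_rnDeriv ω κ
  have hwd : κ.withDensity h = ω := by rw [hh]; exact Measure.withDensity_rnDeriv_eq ω κ hac
  have hfin : ω {x | h x = ∞} = 0 := by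
    apply hac
    have := Measure.rnDeriv_lt_top ω κ
    rw [ae_iff] at this
    rw [hh]
    simpa [not_lt, top_le_iff] using this
  let D : ℕ → Set X := fun n => {x | (n : ℝ≥0∞) < h x}
  have hDm : ∀ n, MeasurableSet (D n) := fun n => measurableSet_lt measurable_const hm
  have hlim : Tendsto (fun n => ω (D n)) atTop (𝓝 0) := by
    have h1 : Tendsto (fun n => ω (D n)) atTop (𝓝 (ω (⋂ n, D n))) := by
      refine tendsto_measure_iInter_atTop (fun n => (hDm n).nullMeasurableSet) ?_ ⟨0, measure_ne_top _ _⟩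
      intro i j hij x hx
      have hx' : (j : ℝ≥0∞) < h x := hx
      have : (i : ℝ≥0∞) ≤ j := by exact_mod_cast hij
      exact lt_of_le_of_lt this hx'
    have h2 : ω (⋂ n, D n) = 0 := by
      refine measure_mono_null ?_ hfin
      intro x hx
      rw [Set.mem_ofPred_eq]
      by_contra hne
      obtain ⟨n, hn⟩ := ENNReal.exists_nat_gt hne
      have : (n : ℝ≥0∞) < h x := Set.mem_iInter.1 hx n
      exact absurd this (not_lt.2 hn.le)
    rwa [h2] at h1
  have hpos : (0 : ℝ≥0∞) < ENNReal.ofReal ε := ENNReal.ofReal_pos.2 hε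
  obtain ⟨n, hn⟩ := (hlim.eventually_le_const hpos).exists
  refine ⟨n, Nat.cast_nonneg n, ?_⟩
  intro g hg h01
  have hG : Measurable fun x => ENNReal.ofReal (g x) := hg.ennreal_ofReal
  have key : ∫⁻ x, ENNReal.ofReal (g x) ∂ω ≤ ENNReal.ofReal ε + n * ∫⁻ x, ENNReal.ofReal (g x) ∂κ := by
    rw [← lintegral_add_compl _ (hDm n)]
    refine add_le_add ?_ ?_
    · calc ∫⁻ x in D n, ENNReal.ofReal (g x) ∂ω ≤ ∫⁻ x in D n, 1 ∂ω := by
            refine lintegral_mono fun x => ?_
            rw [← ENNReal.ofReal_one]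
            exact ENNReal.ofReal_le_ofReal (h01 x).2
        _ = ω (D n) := by rw [setLIntegral_one]
        _ ≤ _ := hn
    · calc ∫⁻ x in (D n)ᶜ, ENNReal.ofReal (g x) ∂ω
          = ∫⁻ x in (D n)ᶜ, h x * ENNReal.ofReal (g x) ∂κ := by
            conv_lhs => rw [← hwd]
            rw [restrict_withDensity (hDm n).compl, lintegral_withDensity_eq_lintegral_mul _ hm hG]
            rfl
        _ ≤ ∫⁻ x in (D n)ᶜ, n * ENNReal.ofReal (g x) ∂κ := by
            refine setLIntegral_mono (hG.const_mul _) ?_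
            intro x hx
            have : h x ≤ n := not_lt.1 hx
            gcongr
        _ ≤ ∫⁻ x, n * ENNReal.ofReal (g x) ∂κ := setLIntegral_le_lintegral _ _
        _ = n * ∫⁻ x, ENNReal.ofReal (g x) ∂κ := lintegral_const_mul _ hG
  have hκfin : ∫⁻ x, ENNReal.ofReal (g x) ∂κ ≠ ∞ := by
    refine ne_top_of_le_ne_top (measure_ne_top κ Set.univ) ?_
    calc ∫⁻ x, ENNReal.ofReal (g x) ∂κ ≤ ∫⁻ x, 1 ∂κ := by
          refine lintegral_mono fun x => ?_
          rw [← ENNReal.ofReal_one]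
          exact ENNReal.ofReal_le_ofReal (h01 x).2
      _ = κ Set.univ := by simp
  rw [integral_eq_lintegral_of_nonneg_ae (ae_of_all _ fun x => (h01 x).1) hg.aestronglyMeasurable,
    integral_eq_lintegral_of_nonneg_ae (ae_of_all _ fun x => (h01 x).1) hg.aestronglyMeasurable]
  have h3 : ENNReal.ofReal ε + n * ∫⁻ x, ENNReal.ofReal (g x) ∂κ ≠ ∞ :=
    ENNReal.add_ne_top.2 ⟨ENNReal.ofReal_ne_top, ENNReal.mul_ne_top (ENNReal.natCast_ne_top n) hκfin⟩
  have h4 := ENNReal.toReal_mono h3 key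
  rw [ENNReal.toReal_add ENNReal.ofReal_ne_top (ENNReal.mul_ne_top (ENNReal.natCast_ne_top n) hκfin),
    ENNReal.toReal_ofReal hε.le, ENNReal.toReal_mul, ENNReal.toReal_natCast] at h4
  exact h4

end Q39.AC.DOM
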