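import Pool.Agent.Q80.AC.Stm

open MeasureTheory Topology Filter
open scoped ENNReal NNReal ComplexConjugate

noncomputable section

namespace Q39.AC.EN1

open Pool.Agent.Q80.AC

variable {E : Type} [NormedAddCommGroup E] [InnerProductSpace ℂ E] [CompleteSpace E]

/-- the exponential semigroup -/
def V (S : E →L[ℂ] E) (a s : ℝ) : E →L[ℂ] E := Real.exp (-(a * s)) • NormedSpace.exp (s • S)

theorem V_zero (S : E →L[ℂ] E) (a : ℝ) : V S a 0 = 1 := by
  simp [V]

theorem V_deriv (S : E →L[ℂ] E) (a s : ℝ) :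
    HasDerivAt (fun s => V S a s) (S * V S a s - a • V S a s) s := by
  have h1 : HasDerivAt (fun s : ℝ => Real.exp (-(a * s))) (Real.exp (-(a * s)) * (-a)) s := by
    have h0 : HasDerivAt (fun s : ℝ => -(a * s)) (-a) s := by
      have := (hasDerivAt_id s).const_mul (-a)
      simpa [neg_mul] using this
    exact h0.exp
  have h2 : HasDerivAt (fun s : ℝ => NormedSpace.exp (s • S)) (S * NormedSpace.exp (s • S)) s :=
    hasDerivAt_exp_smul_const' S s
  have h3 := h1.smul h2
  refine h3.congr_deriv ?_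
  simp only [V]
  rw [mul_smul_comm, smul_smul, mul_comm (Real.exp _) (-a), neg_mul, neg_smul, sub_eq_add_neg]

theorem V_eq (S U : E →L[ℂ] E) (a t : ℝ)
    (h : HasSum (fun k : ℕ => ((Real.exp (-(a * t)) * t ^ k / k.factorial : ℝ) : ℂ) • S ^ k) U) :
    V S a t = U := by
  have h1 := (NormedSpace.exp_series_hasSum_exp' (𝕂 := ℝ) (t • S)).const_smul (Real.exp (-(a * t)))
  refine HasSum.unique ?_ h
  refine h1.congr_fun ?_
  intro k
  rw [smul_pow, smul_smul, smul_smul, Complex.coe_smul]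
  congr 1
  rw [div_eq_mul_inv]
  ring

/-- real part of the inner product -/
def ri (x y : E) : ℝ := (inner ℂ x y).re

omit [CompleteSpace E] in
theorem ri_self (x : E) : ri x x = ‖x‖ ^ 2 := by
  have := @inner_self_eq_norm_sq ℂ E _ _ _ x
  simpa [ri] using this

omit [CompleteSpace E] in
theorem ri_comm (x y : E) : ri x y = ri y x := by
  unfold ri
  rw [← inner_conj_symm, Complex.conj_re]

omit [CompleteSpace E] in
theorem ri_deriv {f g : ℝ → E} {f' g' : E} {s : ℝ} (hf : HasDerivAt f f' s) (hg : HasDerivAt g g' s) :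
    HasDerivAt (fun s => ri (f s) (g s)) (ri (f s) g' + ri f' (g s)) s := by
  have h := HasDerivAt.inner ℂ hf hg
  have h2 : HasDerivAt (fun s => (inner ℂ (f s) (g s)).re) _ s :=
    (Complex.reCLM.hasFDerivAt (x := inner ℂ (f s) (g s))).comp_hasDerivAt s h
  refine h2.congr_deriv ?_
  simp [ri]

theorem t_EN1 : S_EN1 := by
  intro E _ _ _ S U a t ha ht hS hsa hU η
  have hVU := V_eq S U a t hU
  obtain ⟨A, hA⟩ : ∃ A : E →L[ℂ] E, A = (a : ℂ) • (1 : E →L[ℂ] E) - S := ⟨_, rfl⟩
  have hAx : ∀ x, A x = (a : ℂ) • x - S x := by intro x; rw [hA]; simp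
  have hAsa : ∀ x y, ri (A x) y = ri x (A y) := by
    intro x y
    unfold ri
    rw [hAx, hAx, inner_sub_left, inner_sub_right, hsa, inner_smul_left, inner_smul_right]
    simp
  obtain ⟨u, hu⟩ : ∃ u : ℝ → E, u = fun s => V S a s η := ⟨_, rfl⟩
  have hud : ∀ s, HasDerivAt u (-(A (u s))) s := by
    intro s
    have h1 : HasDerivAt (fun s => V S a s η) ((S * V S a s - a • V S a s) η) s := by
      exact (((ContinuousLinearMap.apply ℂ E η).restrictScalars ℝ).hasFDerivAt
        (x := V S a s)).comp_hasDerivAt s (V_deriv S a s)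
    rw [hu]
    refine h1.congr_deriv ?_
    rw [hAx]
    simp
  obtain ⟨w, hw⟩ : ∃ w : ℝ → E, w = fun s => A (u s) := ⟨_, rfl⟩
  have hwd : ∀ s, HasDerivAt w (-(A (w s))) s := by
    intro s
    have h1 : HasDerivAt (fun s => A (u s)) (A (-(A (u s)))) s :=
      ((A.restrictScalars ℝ).hasFDerivAt (x := u s)).comp_hasDerivAt s (hud s)
    rw [hw]
    simpa using h1
  have hN : ∀ s, HasDerivAt (fun s => ri (u s) (u s)) (-2 * ri (w s) (u s)) s := by
    intro s
    refine (ri_deriv (hud s) (hud s)).congr_deriv ?_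
    have e1 : ri (u s) (-(A (u s))) = - ri (w s) (u s) := by
      rw [ri_comm (w s)]; simp [ri, hw]
    have e2 : ri (-(A (u s))) (u s) = - ri (w s) (u s) := by
      simp [ri, hw]
    rw [e1, e2]; ring
  have hG : ∀ s, HasDerivAt (fun s => ri (w s) (u s)) (-2 * ‖w s‖ ^ 2) s := by
    intro s
    refine (ri_deriv (hwd s) (hud s)).congr_deriv ?_
    have e1 : ri (w s) (-(A (u s))) = - ‖w s‖ ^ 2 := by
      rw [← ri_self]; simp [ri, hw]
    have e2 : ri (-(A (w s))) (u s) = - ‖w s‖ ^ 2 := by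
      have : ri (-(A (w s))) (u s) = - ri (A (w s)) (u s) := by simp [ri]
      rw [this, hAsa, ← ri_self]
      simp [hw]
    rw [e1, e2]; ring
  have hH : ∀ s, HasDerivAt (fun s => ri (u s) (u s) + 2 * s * ri (w s) (u s))
      (-4 * s * ‖w s‖ ^ 2) s := by
    intro s
    have h1 : HasDerivAt (fun s : ℝ => 2 * s) 2 s := by
      simpa using (hasDerivAt_id s).const_mul 2
    refine ((hN s).add (h1.mul (hG s))).congr_deriv ?_
    ring
  have hanti : AntitoneOn (fun s => ri (u s) (u s) + 2 * s * ri (w s) (u s)) (Set.Ici 0) := by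
    refine antitoneOn_of_deriv_nonpos (convex_Ici 0) ?_ ?_ ?_
    · exact fun s _ => (hH s).continuousAt.continuousWithinAt
    · exact fun s _ => (hH s).differentiableAt.differentiableWithinAt
    · intro s hs
      rw [interior_Ici] at hs
      rw [(hH s).deriv]
      have : 0 ≤ s * ‖w s‖ ^ 2 := mul_nonneg (le_of_lt hs) (by positivity)
      nlinarith
  have hle := hanti (Set.mem_Ici.2 le_rfl) (Set.mem_Ici.2 ht.le) ht.le
  have hu0 : u 0 = η := by rw [hu]; simp [V_zero]
  have hut : u t = U η := by rw [hu]; simp only [hVU]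
  simp only [mul_zero, zero_mul, add_zero, hu0, ri_self] at hle
  have hwt : ri (w t) (u t) = a * ‖U η‖ ^ 2 - (inner ℂ (S (U η)) (U η)).re := by
    rw [hw]
    simp only [hut, hAx]
    unfold ri
    rw [inner_sub_left, inner_smul_left, Complex.sub_re]
    have := ri_self (U η)
    unfold ri at this
    rw [Complex.conj_ofReal, Complex.re_ofReal_mul, this]
  rw [← hwt]
  rw [le_div_iff₀ ht]
  have h3 : 0 ≤ ‖u t‖ ^ 2 := by positivity
  have h4 : 0 ≤ ‖η‖ ^ 2 := by positivity
  by_cases h5 : 0 ≤ ri (w t) (u t)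
  · nlinarith [mul_nonneg h5 ht.le]
  · push Not at h5
    nlinarith [mul_neg_of_neg_of_pos h5 ht]

end Q39.AC.EN1
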